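import Pool.Agent.P.MP_bd6b97_lc.Th.Need

set_option autoImplicit false

/-- Borel form of the partition theorem of Lovasz with vertex-dependent demands, whenever at each
vertex one demand is at most one or both are two. -/
theorem Pool.Agent.Results.MP_bd6b97_lc.VariableNeeds.result :
    ∀ (V : Type) [MeasurableSpace V] [StandardBorelSpace V] (G : SimpleGraph V),
      MeasurableSet {p : V × V | G.Adj p.1 p.2} →
      (∀ v : V, (G.neighborSet v).Finite) →
      ∀ a : Bool → V → ℕ, (∀ i, Measurable (a i)) →
        (∀ v : V, a true v + a false v ≤ (G.neighborSet v).ncard + 1) →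
        (∀ v : V, a true v ≤ 1 ∨ a false v ≤ 1 ∨ a true v + a false v ≤ 4) →
        ∃ c : V → Bool, Measurable c ∧
          ∀ v : V, a (c v) v ≤ {w : V | G.Adj v w ∧ c w ≠ c v}.ncard :=
  fun _ _ _ G hG hf a ha h1 h2 => Pool.Agent.P.MP_bd6b97_lc.G4.need_main G hG hf a ha h1 h2

/-- The case of 3-regular graphs with both demands equal to two: two of the three neighbours of
every vertex have the other colour. -/
theorem Pool.Agent.Results.MP_bd6b97_lc.VariableNeeds.cubic (V : Type) [MeasurableSpace V]
    [StandardBorelSpace V] (G : SimpleGraph V) (hG : MeasurableSet {p : V × V | G.Adj p.1 p.2})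
    (h3 : ∀ v : V, (G.neighborSet v).ncard = 3) :
    ∃ c : V → Bool, Measurable c ∧ ∀ v : V, 2 ≤ {w : V | G.Adj v w ∧ c w ≠ c v}.ncard :=
  Pool.Agent.Results.MP_bd6b97_lc.VariableNeeds.result V G hG
    (fun v => Set.finite_of_ncard_ne_zero (by rw [h3 v]; norm_num)) (fun _ _ => 2)
    (fun _ => measurable_const) (fun v => by rw [h3 v]) fun _ => Or.inr (Or.inr le_rfl)
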